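import Pool.Agent.H67.AG.T1
import Pool.Agent.H67.AG.T3

/-!
Row AVP of `gap_modules` (`MP_c59857_nt`): averages over primes of the iterates, for functions
without invariant part.
-/

set_option autoImplicit false

open MeasureTheory ProbabilityTheory Filter Topology Finset
open scoped Nat ENNReal

namespace Pool.Agent.H54.AG

open Pool.Agent.H67.AG
open Pool.Agent.H24.T2 (Pset)

theorem Pset_dvd {W m p : ℕ} (hp : p ∈ Pset W m) : 1 ≤ p ∧ W ∣ p - 1 := by
  unfold Pset at hp
  rw [Finset.mem_filter] at hp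
  have h1 : 1 ≤ p := hp.2.1.one_lt.le
  refine ⟨h1, ?_⟩
  exact (Nat.modEq_iff_dvd' h1).1 hp.2.2.symm

theorem Pset_inj {W m : ℕ} (hW : 0 < W) :
    Set.InjOn (fun p : ℕ => (p - 1) / W) (Pset W m : Set ℕ) := by
  intro p hp q hq h
  obtain ⟨hp1, a, ha⟩ := Pset_dvd (Finset.mem_coe.1 hp)
  obtain ⟨hq1, c, hc⟩ := Pset_dvd (Finset.mem_coe.1 hq)
  simp only at h
  rw [ha, hc, Nat.mul_div_cancel_left _ hW, Nat.mul_div_cancel_left _ hW] at h
  subst h
  omega

/-- the exponential sum, normalised -/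
noncomputable def G (W m : ℕ) (x : Set.Ico (0 : ℝ) 1) : ℝ :=
  ‖∑ p ∈ Pset W m, Complex.exp (2 * Real.pi * Complex.I * ((x : ℝ) * ((p - 1) / W : ℕ)))‖ /
    ((Pset W m).card : ℝ)

theorem G_nonneg (W m : ℕ) (x : Set.Ico (0 : ℝ) 1) : 0 ≤ G W m x := by
  unfold G; positivity

theorem G_le (W m : ℕ) (x : Set.Ico (0 : ℝ) 1) : G W m x ≤ 1 := by
  unfold G
  refine div_le_one_of_le₀ ?_ (Nat.cast_nonneg _)
  calc ‖∑ p ∈ Pset W m, Complex.exp (2 * Real.pi * Complex.I * ((x : ℝ) * ((p - 1) / W : ℕ)))‖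
      ≤ ∑ p ∈ Pset W m, ‖Complex.exp (2 * Real.pi * Complex.I *
          ((x : ℝ) * ((p - 1) / W : ℕ)))‖ := norm_sum_le _ _
    _ = ∑ p ∈ Pset W m, (1 : ℝ) := by
        refine Finset.sum_congr rfl fun p _ => ?_
        have h : (2 * Real.pi * Complex.I * ((x : ℝ) * ((p - 1) / W : ℕ)) : ℂ) =
            ((2 * Real.pi * ((x : ℝ) * ((p - 1) / W : ℕ)) : ℝ) : ℂ) * Complex.I := by
          push_cast; ring
        rw [h, Complex.norm_exp_ofReal_mul_I]
    _ = ((Pset W m).card : ℝ) := by simp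

theorem G_cont (W m : ℕ) : Continuous (G W m) := by
  unfold G
  fun_prop

theorem pf_AVP (hv : T_V) (hh : T_HER) (_hpn : T_PN) : T_AVP := by
  intro Ω _ P _ T w W b f ε hT hf hf1 hw hW hwW hb hcond hε
  obtain ⟨ν, hν, hsp, h0⟩ := hh Ω P T (W * b) f hT hf hf1
  have hz : ν.real {x : Set.Ico (0 : ℝ) 1 | (x : ℝ) = 0} = 0 := by
    rw [h0]
    have h : (fun ω => ((P[f | Inv T (W * b)]) ω) ^ 2) =ᵐ[P] fun _ => (0 : ℝ) := by
      filter_upwards [hcond] with ω hω
      rw [hω]; simp
    rw [integral_congr_ae h, integral_zero]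
  have hae : ∀ᵐ x : Set.Ico (0 : ℝ) 1 ∂ν, (x : ℝ) ≠ 0 := by
    rw [ae_iff]
    simp only [ne_eq, not_not]
    rwa [measureReal_eq_zero_iff] at hz
  have htot : ν.real Set.univ = ∫ ω, f ω ^ 2 ∂P := by
    have h := hsp {0} (fun _ => 1)
    simpa using h.symm
  have key : ∀ m, ∫ ω, (avgP W m fun p => f (T^[(p - 1) * b] ω)) ^ 2 ∂P =
      ∫ x, (G W m x) ^ 2 ∂ν := by
    intro m
    have h := hsp ((Pset W m).image fun p => (p - 1) / W) (fun _ => (((Pset W m).card : ℂ))⁻¹)
    have h1 : ∀ ω, ‖∑ n ∈ (Pset W m).image (fun p => (p - 1) / W),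
        (((Pset W m).card : ℂ))⁻¹ * (f (T^[W * b * n] ω) : ℂ)‖ ^ 2 =
        (avgP W m fun p => f (T^[(p - 1) * b] ω)) ^ 2 := by
      intro ω
      rw [Finset.sum_image (Pset_inj hW)]
      have h2 : ∑ p ∈ Pset W m, (((Pset W m).card : ℂ))⁻¹ *
          (f (T^[W * b * ((p - 1) / W)] ω) : ℂ) =
          ((avgP W m fun p => f (T^[(p - 1) * b] ω) : ℝ) : ℂ) := by
        unfold avgP
        rw [← Finset.mul_sum]
        push_cast
        rw [div_eq_inv_mul]
        congr 1
        refine Finset.sum_congr rfl fun p hp => ?_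
        have h3 : W * b * ((p - 1) / W) = (p - 1) * b := by
          obtain ⟨_, c, hc⟩ := Pset_dvd hp
          rw [hc, Nat.mul_div_cancel_left _ hW]; ring
        rw [h3]
      rw [h2, Complex.norm_real, Real.norm_eq_abs, sq_abs]
    have h4 : ∀ x : Set.Ico (0 : ℝ) 1, ‖∑ n ∈ (Pset W m).image (fun p => (p - 1) / W),
        (((Pset W m).card : ℂ))⁻¹ *
          Complex.exp (2 * Real.pi * Complex.I * ((x : ℝ) * n))‖ ^ 2 = (G W m x) ^ 2 := by
      intro x
      rw [Finset.sum_image (Pset_inj hW), ← Finset.mul_sum, norm_mul, norm_inv,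
        Complex.norm_natCast]
      unfold G
      rw [div_eq_inv_mul]
    rw [← integral_congr_ae (Eventually.of_forall h1), ← integral_congr_ae (Eventually.of_forall h4)]
    exact h
  have hlim : Tendsto (fun m => ∫ x, max 0 ((G W m x) ^ 2 - 1 / (w : ℝ) ^ 2) ∂ν) atTop (𝓝 0) := by
    have h := tendsto_integral_of_dominated_convergence (μ := ν)
      (F := fun m x => max 0 ((G W m x) ^ 2 - 1 / (w : ℝ) ^ 2)) (f := fun _ => (0 : ℝ))
      (fun _ => (1 : ℝ))
      (fun m => (continuous_const.max (((G_cont W m).pow 2).sub continuous_const)).aestronglyMeasurable)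
      (integrable_const _)
      (fun m => Eventually.of_forall fun x => by
        rw [Real.norm_eq_abs, abs_of_nonneg (le_max_left _ _)]
        refine max_le zero_le_one ?_
        have h1 := G_le W m x
        have h2 := G_nonneg W m x
        have h3 : (0 : ℝ) ≤ 1 / (w : ℝ) ^ 2 := by positivity
        nlinarith)
      (by
        filter_upwards [hae] with x hx
        rw [Metric.tendsto_atTop]
        intro e he
        have hxn : ∀ n : ℤ, (x : ℝ) ≠ n := by
          intro n hn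
          have h1 := x.2.1
          have h2 := x.2.2
          rw [hn] at h1 h2 hx
          have h3 : 0 ≤ n := by exact_mod_cast h1
          have h4 : n < 1 := by exact_mod_cast h2
          have h5 : n = 0 := by omega
          apply hx
          rw [h5]; norm_num
        obtain ⟨m₀, hm₀⟩ := hv w W (x : ℝ) hw hW hwW hxn (min 1 (e / 4)) (by positivity)
        refine ⟨m₀, fun m hm => ?_⟩
        have h6 := hm₀ m hm
        have h7 : G W m x ≤ 1 / w + min 1 (e / 4) := by
          unfold G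
          exact div_le_of_le_mul₀ (Nat.cast_nonneg _) (by positivity) h6
        have h8 := G_nonneg W m x
        have hw1 : (1 : ℝ) / w ≤ 1 := by
          rw [div_le_one (by exact_mod_cast hw)]
          exact_mod_cast hw
        have hw0 : (0 : ℝ) ≤ 1 / w := by positivity
        have h9 : min 1 (e / 4) ≤ 1 := min_le_left _ _
        have h10 : min 1 (e / 4) ≤ e / 4 := min_le_right _ _
        have h11 : (0 : ℝ) < min 1 (e / 4) := by positivity
        rw [Real.dist_eq, sub_zero, abs_of_nonneg (le_max_left _ _)]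
        refine max_lt he ?_
        have h12 : (1 : ℝ) / (w : ℝ) ^ 2 = (1 / w) ^ 2 := by rw [div_pow, one_pow]
        rw [h12]
        have h13 : (G W m x) ^ 2 ≤ (1 / w + min 1 (e / 4)) ^ 2 := by gcongr
        nlinarith)
    simpa using h
  rw [Metric.tendsto_atTop] at hlim
  obtain ⟨m₀, hm₀⟩ := hlim ε hε
  refine ⟨m₀, fun m hm => ?_⟩
  have h1 := hm₀ m hm
  rw [Real.dist_eq, sub_zero] at h1
  have h2 := (abs_lt.1 h1).2
  have hi1 : Integrable (fun x => (G W m x) ^ 2) ν := by
    refine Integrable.of_bound (C := 1) ((G_cont W m).pow 2).aestronglyMeasurable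
      (Eventually.of_forall fun x => ?_)
    rw [Real.norm_eq_abs, abs_of_nonneg (by positivity)]
    have h1 := G_le W m x
    have h2 := G_nonneg W m x
    nlinarith
  have hi2 : Integrable (fun x => max 0 ((G W m x) ^ 2 - 1 / (w : ℝ) ^ 2)) ν := by
    refine Integrable.of_bound (C := 1)
      (continuous_const.max (((G_cont W m).pow 2).sub continuous_const)).aestronglyMeasurable
      (Eventually.of_forall fun x => ?_)
    rw [Real.norm_eq_abs, abs_of_nonneg (le_max_left _ _)]
    refine max_le zero_le_one ?_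
    have h1 := G_le W m x
    have h2 := G_nonneg W m x
    have h3 : (0 : ℝ) ≤ 1 / (w : ℝ) ^ 2 := by positivity
    nlinarith
  rw [key m]
  calc ∫ x, (G W m x) ^ 2 ∂ν
      ≤ ∫ x, (max 0 ((G W m x) ^ 2 - 1 / (w : ℝ) ^ 2) + 1 / (w : ℝ) ^ 2) ∂ν := by
        refine integral_mono hi1 (hi2.add (integrable_const _)) fun x => ?_
        have h3 := le_max_right 0 ((G W m x) ^ 2 - 1 / (w : ℝ) ^ 2)
        simp only
        linarith
    _ = (∫ x, max 0 ((G W m x) ^ 2 - 1 / (w : ℝ) ^ 2) ∂ν) +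
          ν.real Set.univ * (1 / (w : ℝ) ^ 2) := by
        rw [integral_add hi2 (integrable_const _), integral_const, smul_eq_mul]
    _ ≤ 1 / (w : ℝ) ^ 2 * ∫ ω, f ω ^ 2 ∂P + ε := by
        rw [htot]; linarith

end Pool.Agent.H54.AG
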