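import Pool.Agent.H67.AG.T1

/-!
Row GP of `gap_modules` (`MP_c59857_nt`): nearby points have positive mass.
-/

set_option autoImplicit false

open MeasureTheory ProbabilityTheory Filter Topology Finset
open scoped Nat ENNReal

namespace Pool.Agent.H54.AG

open Pool.Agent.H67.AG

/-- continuous approximations with values in `[-1, 1]` -/
theorem approx {X : Type} [TopologicalSpace X] [PolishSpace X] [MeasurableSpace X] [BorelSpace X]
    (ν : Measure X) [IsProbabilityMeasure ν] (K : X × X → ℝ) (hK : Measurable K)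
    (hb : ∀ q, |K q| ≤ 1) (η : ℝ) (hη : 0 < η) :
    ∃ G : X × X → ℝ, Continuous G ∧ (∀ q, |G q| ≤ 1) ∧
      ∫ q, (K q - G q) ^ 2 ∂(ν.prod ν) ≤ 2 * η := by
  have hi : Integrable K (ν.prod ν) :=
    Integrable.of_bound hK.aestronglyMeasurable 1 (Eventually.of_forall hb)
  obtain ⟨g, hg, hgi⟩ := hi.exists_boundedContinuous_integral_sub_le hη
  have hGb : ∀ q, |max (-1) (min 1 (g q))| ≤ 1 := by
    intro q
    rw [abs_le]
    exact ⟨le_max_left _ _, max_le (by norm_num) (min_le_left _ _)⟩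
  have hGc : Continuous fun q => max (-1) (min 1 (g q)) :=
    continuous_const.max (continuous_const.min g.continuous)
  refine ⟨fun q => max (-1) (min 1 (g q)), hGc, hGb, ?_⟩
  have h1 : ∀ q, (K q - max (-1) (min 1 (g q))) ^ 2 ≤ 2 * ‖K q - g q‖ := by
    intro q
    have h2 := abs_le.1 (hb q)
    have h3 := abs_le.1 (hGb q)
    have h4 : |K q - max (-1) (min 1 (g q))| ≤ |K q - g q| := by
      rcases le_total (g q) 1 with h5 | h5
      · rw [min_eq_right h5]
        rcases le_total (-1) (g q) with h6 | h6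
        · rw [max_eq_right h6]
        · rw [max_eq_left h6, abs_of_nonneg (by linarith [h2.1]), abs_of_nonneg (by linarith [h2.1])]
          linarith
      · rw [min_eq_left h5, max_eq_right (by norm_num), abs_of_nonpos (by linarith [h2.2]),
          abs_of_nonpos (by linarith [h2.2])]
        linarith
    have h5 : |K q - max (-1) (min 1 (g q))| ≤ 2 := by
      rw [abs_le]; constructor <;> linarith [h2.1, h2.2, h3.1, h3.2]
    rw [Real.norm_eq_abs, ← sq_abs]
    have h6 := abs_nonneg (K q - max (-1) (min 1 (g q)))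
    nlinarith
  calc ∫ q, (K q - max (-1) (min 1 (g q))) ^ 2 ∂(ν.prod ν)
      ≤ ∫ q, 2 * ‖K q - g q‖ ∂(ν.prod ν) := by
        refine integral_mono ?_ ?_ h1
        · refine Integrable.of_bound ((hK.sub hGc.measurable).pow_const 2).aestronglyMeasurable 4
            (Eventually.of_forall fun q => ?_)
          have h2 := abs_le.1 (hb q)
          have h3 := abs_le.1 (hGb q)
          rw [Real.norm_eq_abs, abs_of_nonneg (sq_nonneg _)]
          nlinarith [h2.1, h2.2, h3.1, h3.2]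
        · exact ((hi.sub hgi).norm).const_mul 2
    _ = 2 * ∫ q, ‖K q - g q‖ ∂(ν.prod ν) := integral_const_mul _ _
    _ ≤ 2 * η := by linarith

theorem four {X : Type} [MeasurableSpace X] (ν : Measure X) (f a b c d : X → ℝ)
    (hf : Integrable f ν) (ha : Integrable a ν) (hb : Integrable b ν) (hc : Integrable c ν)
    (hd : Integrable d ν) (h : ∀ y, f y ≤ 4 * a y + 4 * b y + 4 * c y + 4 * d y) :
    ∫ y, f y ∂ν ≤ 4 * (∫ y, a y ∂ν) + 4 * (∫ y, b y ∂ν) + 4 * (∫ y, c y ∂ν) +
      4 * (∫ y, d y ∂ν) := by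
  have i1 : Integrable (fun y => 4 * a y + 4 * b y) ν := (ha.const_mul 4).add (hb.const_mul 4)
  have i2 : Integrable (fun y => 4 * a y + 4 * b y + 4 * c y) ν := i1.add (hc.const_mul 4)
  have i3 : Integrable (fun y => 4 * a y + 4 * b y + 4 * c y + 4 * d y) ν :=
    i2.add (hd.const_mul 4)
  have h1 := integral_mono hf i3 h
  rw [integral_add i2 (hd.const_mul 4), integral_add i1 (hc.const_mul 4),
    integral_add (ha.const_mul 4) (hb.const_mul 4), integral_const_mul, integral_const_mul,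
    integral_const_mul, integral_const_mul] at h1
  exact h1

theorem close_pos {X : Type} [MeasurableSpace X] [StandardBorelSpace X] (ν : Measure X)
    [IsProbabilityMeasure ν] {ι : Type} (s : Finset ι) (K : ι → X × X → ℝ)
    (hK : ∀ j, Measurable (K j)) (hb : ∀ j q, |K j q| ≤ 1) (ε : ℝ) (hε : 0 < ε) :
    ∃ B : Set X, ν B ≠ 0 ∧ ∀ x ∈ B, ∀ x' ∈ B,
      ∑ j ∈ s, ∫ y, (K j (x, y) - K j (x', y)) ^ 2 ∂ν ≤ ε := by
  letI := upgradeStandardBorel X
  have hη : 0 < ε / (64 * ((s.card : ℝ) + 1)) := by positivity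
  choose G hGc hGb hG using fun j => approx ν (K j) (hK j) (hb j) _ hη
  -- the squares are integrable
  have bsq : ∀ a b : ℝ, |a| ≤ 1 → |b| ≤ 1 → ‖(a - b) ^ 2‖ ≤ 4 := by
    intro a b ha hb'
    rw [abs_le] at ha hb'
    rw [Real.norm_eq_abs, abs_of_nonneg (sq_nonneg _)]
    nlinarith [ha.1, ha.2, hb'.1, hb'.2]
  have mK : ∀ j x, Measurable fun y => K j (x, y) := fun j x => (hK j).comp measurable_prodMk_left
  have mG : ∀ j x, Measurable fun y => G j (x, y) :=
    fun j x => (hGc j).measurable.comp measurable_prodMk_left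
  have iKG : ∀ j x, Integrable (fun y => (K j (x, y) - G j (x, y)) ^ 2) ν := fun j x =>
    Integrable.of_bound (((mK j x).sub (mG j x)).pow_const 2).aestronglyMeasurable 4
      (Eventually.of_forall fun y => bsq _ _ (hb j _) (hGb j _))
  have iGG : ∀ j x x', Integrable (fun y => (G j (x, y) - G j (x', y)) ^ 2) ν := fun j x x' =>
    Integrable.of_bound (((mG j x).sub (mG j x')).pow_const 2).aestronglyMeasurable 4
      (Eventually.of_forall fun y => bsq _ _ (hGb j _) (hGb j _))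
  have iKK : ∀ j x x', Integrable (fun y => (K j (x, y) - K j (x', y)) ^ 2) ν := fun j x x' =>
    Integrable.of_bound (((mK j x).sub (mK j x')).pow_const 2).aestronglyMeasurable 4
      (Eventually.of_forall fun y => bsq _ _ (hb j _) (hb j _))
  have iP : ∀ j, Integrable (fun q => (K j q - G j q) ^ 2) (ν.prod ν) := fun j =>
    Integrable.of_bound (((hK j).sub (hGc j).measurable).pow_const 2).aestronglyMeasurable 4
      (Eventually.of_forall fun y => bsq _ _ (hb j _) (hGb j _))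
  -- points where the approximation is good
  set e : X → ℝ := fun x => ∑ j ∈ s, ∫ y, (K j (x, y) - G j (x, y)) ^ 2 ∂ν with he
  have hS : ν {x | e x < ε / 16} ≠ 0 := by
    intro h0
    have h1 : ∀ᵐ x ∂ν, ε / 16 ≤ e x := by
      rw [ae_iff]
      simpa only [not_le] using h0
    have ie : ∀ j ∈ s, Integrable (fun x => ∫ y, (K j (x, y) - G j (x, y)) ^ 2 ∂ν) ν :=
      fun j _ => (iP j).integral_prod_left
    have h2 : ∫ x, (ε / 16) ∂ν ≤ ∫ x, e x ∂ν :=
      integral_mono_ae (integrable_const _) (integrable_finset_sum _ ie) h1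
    rw [integral_const, probReal_univ, smul_eq_mul, one_mul, he, integral_finset_sum _ ie] at h2
    have h3 : ∀ j ∈ s, ∫ x, ∫ y, (K j (x, y) - G j (x, y)) ^ 2 ∂ν ∂ν ≤
        2 * (ε / (64 * ((s.card : ℝ) + 1))) := by
      intro j _
      rw [← integral_prod _ (iP j)]
      exact hG j
    have h4 := Finset.sum_le_sum h3
    rw [Finset.sum_const, nsmul_eq_mul] at h4
    have h5 : (s.card : ℝ) * (2 * (ε / (64 * ((s.card : ℝ) + 1)))) ≤ ε / 32 := by
      have h6 : (0 : ℝ) < (s.card : ℝ) + 1 := by positivity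
      have h7 : (s.card : ℝ) * (2 * (ε / (64 * ((s.card : ℝ) + 1)))) =
          ε / 32 * ((s.card : ℝ) / ((s.card : ℝ) + 1)) := by
        field_simp; ring
      rw [h7]
      have h8 : (s.card : ℝ) / ((s.card : ℝ) + 1) ≤ 1 := by
        rw [div_le_one h6]; linarith
      have h9 : 0 ≤ ε / 32 := by positivity
      nlinarith
    linarith
  obtain ⟨x₀, hx₀, hnb⟩ := exists_mem_forall_mem_nhdsWithin_pos_measure hS
  have hc : Continuous fun x => ∑ j ∈ s, ∫ y, (G j (x₀, y) - G j (x, y)) ^ 2 ∂ν := by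
    refine continuous_finset_sum _ fun j _ => ?_
    refine continuous_of_dominated (bound := fun _ => 4)
      (fun x => (iGG j x₀ x).aestronglyMeasurable)
      (fun x => Eventually.of_forall fun y => bsq _ _ (hGb j _) (hGb j _))
      (integrable_const _) (Eventually.of_forall fun y => ?_)
    exact (continuous_const.sub ((hGc j).comp (continuous_id.prodMk continuous_const))).pow 2
  have hO : IsOpen {x | ∑ j ∈ s, ∫ y, (G j (x₀, y) - G j (x, y)) ^ 2 ∂ν < ε / 16} :=
    isOpen_lt hc continuous_const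
  have hx0 : x₀ ∈ {x | ∑ j ∈ s, ∫ y, (G j (x₀, y) - G j (x, y)) ^ 2 ∂ν < ε / 16} := by
    simp only [Set.mem_setOf_eq, sub_self]
    simp
    positivity
  refine ⟨_, (hnb _ (mem_nhdsWithin.2 ⟨_, hO, hx0, subset_rfl⟩)).ne', ?_⟩
  rintro x ⟨hx2, hx1⟩ x' ⟨hx2', hx1'⟩
  simp only [Set.mem_setOf_eq] at hx1 hx2 hx1' hx2'
  have hmain : ∀ j ∈ s, ∫ y, (K j (x, y) - K j (x', y)) ^ 2 ∂ν ≤
      4 * (∫ y, (K j (x, y) - G j (x, y)) ^ 2 ∂ν) +
      4 * (∫ y, (G j (x₀, y) - G j (x, y)) ^ 2 ∂ν) +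
      4 * (∫ y, (G j (x₀, y) - G j (x', y)) ^ 2 ∂ν) +
      4 * (∫ y, (K j (x', y) - G j (x', y)) ^ 2 ∂ν) := by
    intro j _
    refine four ν _ _ _ _ _ (iKK j x x') (iKG j x) (iGG j x₀ x) (iGG j x₀ x') (iKG j x')
      fun y => ?_
    nlinarith [sq_nonneg ((K j (x, y) - G j (x, y)) + (G j (x₀, y) - G j (x, y))),
      sq_nonneg ((K j (x, y) - G j (x, y)) - (G j (x₀, y) - G j (x', y))),
      sq_nonneg ((K j (x, y) - G j (x, y)) + (K j (x', y) - G j (x', y))),
      sq_nonneg ((G j (x₀, y) - G j (x, y)) + (G j (x₀, y) - G j (x', y))),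
      sq_nonneg ((G j (x₀, y) - G j (x, y)) - (K j (x', y) - G j (x', y))),
      sq_nonneg ((G j (x₀, y) - G j (x', y)) + (K j (x', y) - G j (x', y)))]
  have hsum := Finset.sum_le_sum hmain
  simp only [Finset.sum_add_distrib, ← Finset.mul_sum] at hsum
  simp only [he] at hx1 hx1'
  linarith

theorem pf_GP (h : T_J1) (h4 : T_J4) : T_GP := by
  intro X _ _ μ _ T Z n W H ε hT hZ hH hε
  by_contra hcon
  have hnn : 0 ≤ (JJ μ Z).real {q | Gb μ Z T n W H q ≤ ε} := measureReal_nonneg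
  have hz : (JJ μ Z).real {q | Gb μ Z T n W H q ≤ ε} = 0 := le_antisymm (not_lt.1 hcon) hnn
  have : IsProbabilityMeasure (JJ μ Z) := by unfold JJ; infer_instance
  rw [measureReal_eq_zero_iff] at hz
  have hA : ∀ᵐ q ∂(JJ μ Z), ¬ Gb μ Z T n W H q ≤ ε := by
    rw [ae_iff]; simpa only [not_not] using hz
  have hA1 : ∀ᵐ x ∂μ, ∀ᵐ x' ∂(kap μ Z x), ¬ Gb μ Z T n W H (x, x') ≤ ε :=
    Measure.ae_ae_of_ae_compProd hA
  have hB1 : ∀ᵐ z ∂μ, ∀ᵐ x ∂(kap μ Z z), kap μ Z z = kap μ Z x :=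
    Measure.ae_ae_of_ae_compProd (h4 X μ Z).1
  -- the second marginal of `JJ` is `μ`
  have hsnd : ∀ p : X → Prop, (∀ᵐ x ∂μ, p x) → ∀ᵐ q ∂(JJ μ Z), p q.2 := by
    intro p hp
    rw [ae_iff] at hp
    obtain ⟨N, hN1, hN2, hN3⟩ := exists_measurable_superset_of_null hp
    have h1 := h X μ Z (fun _ => 1) (N.indicator fun _ => 1) measurable_const
      (measurable_const.indicator hN2) ⟨1, fun _ => by simp⟩
      ⟨1, fun x => by by_cases hx : x ∈ N <;> simp [hx]⟩
    have h2 : (μ[(fun _ => 1 : X → ℝ) | Z.1]) = fun _ => (1 : ℝ) := condExp_const Z.2 1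
    rw [h2] at h1
    simp only [one_mul] at h1
    rw [integral_condExp Z.2] at h1
    have h3 : ∫ x, N.indicator (fun _ => (1 : ℝ)) x ∂μ = 0 := by
      rw [integral_indicator_const _ hN2]
      simp [measureReal_def, hN3]
    have h5 : ∫ q, N.indicator (fun _ => (1 : ℝ)) q.2 ∂(JJ μ Z) =
        (JJ μ Z).real (Prod.snd ⁻¹' N) := by
      have h6 : (fun q : X × X => N.indicator (fun _ => (1 : ℝ)) q.2) =
          (Prod.snd ⁻¹' N).indicator fun _ => (1 : ℝ) := by
        funext q; rfl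
      rw [h6, integral_indicator_const _ (measurable_snd hN2)]
      simp
    rw [h5, h3, measureReal_eq_zero_iff] at h1
    rw [ae_iff]
    exact measure_mono_null (fun q hq => hN1 hq) h1
  have hC1 : ∀ᵐ z ∂μ, ∀ᵐ x ∂(kap μ Z z), ∀ᵐ x' ∂(kap μ Z x), ¬ Gb μ Z T n W H (x, x') ≤ ε :=
    Measure.ae_ae_of_ae_compProd (hsnd _ hA1)
  obtain ⟨z, hz1, hz2⟩ := (hB1.and hC1).exists
  obtain ⟨B, hB0, hB⟩ := close_pos (kap μ Z z)
    ((Finset.univ : Finset (Fin n)) ×ˢ (Finset.range W))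
    (fun j q => H j.1 (T^[j.2] q.1, T^[j.2] q.2))
    (fun j => (hH j.1).1.comp (((T.measurable.iterate j.2).comp measurable_fst).prodMk
      ((T.measurable.iterate j.2).comp measurable_snd)))
    (fun j q => (hH j.1).2.1 _) ε hε
  have hGb : ∀ x, kap μ Z z = kap μ Z x → ∀ x', Gb μ Z T n W H (x, x') =
      ∑ j ∈ (Finset.univ : Finset (Fin n)) ×ˢ (Finset.range W),
        ∫ y, (H j.1 (T^[j.2] x, T^[j.2] y) - H j.1 (T^[j.2] x', T^[j.2] y)) ^ 2 ∂(kap μ Z z) := by
    intro x hx x'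
    unfold Gb
    rw [Finset.sum_product]
    simp only [hx]
  have hfr : ∃ᵐ x ∂(kap μ Z z), x ∈ B := frequently_ae_mem_iff.2 hB0
  obtain ⟨x, ⟨hx, hx1⟩, hx2⟩ := ((hz1.and hz2).and_frequently hfr).exists
  rw [← hx] at hx1
  obtain ⟨x', hx1', hx2'⟩ := (hx1.and_frequently hfr).exists
  apply hx1'
  rw [hGb x hx x']
  exact hB x hx2 x' hx2'

end Pool.Agent.H54.AG
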