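import Pool.Agent.H67.AG.T1
import Pool.Agent.H67.AG.T4

/-!
Row MN of `gap_modules` (`MP_c59857_nt`): naturality of the mismatch.
-/

set_option autoImplicit false

open MeasureTheory ProbabilityTheory Filter Topology Finset
open scoped Nat ENNReal

namespace Pool.Agent.H54.AG

open Pool.Agent.H67.AG

theorem dl_meas {Ω : Type} [MeasurableSpace Ω] {k : ℕ} {y y' : Fin k → Ω → ℝ} (hy : Tup y)
    (hy' : Tup y') (i : Fin k) : Measurable (dl y y' i) := by
  classical
  have h : MeasurableSet {ω | y i ω = y' i ω} := measurableSet_eq_fun (hy.1 i) (hy'.1 i)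
  have h2 : dl y y' i = fun ω => if ω ∈ {ω | y i ω = y' i ω} then (0 : ℝ) else 1 := by
    funext ω
    unfold dl
    by_cases h3 : y i ω = y' i ω
    · rw [if_pos h3, if_pos (show ω ∈ {ω | y i ω = y' i ω} from h3)]
    · rw [if_neg h3, if_neg (show ¬ ω ∈ {ω | y i ω = y' i ω} from h3)]
  rw [h2]
  exact Measurable.ite h measurable_const measurable_const

theorem dl_bd {Ω : Type} [MeasurableSpace Ω] {k : ℕ} (y y' : Fin k → Ω → ℝ) (i : Fin k) (ω : Ω) :
    |dl y y' i ω| ≤ 1 := by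
  unfold dl
  split_ifs <;> simp

theorem pf_MN (h1 : T_NA) (h2 : T_NR) : T_MN := by
  intro Ω Ω' _ _ P _ P' _ T T' g k y y' hT hT' hF hy hy'
  have hm : ∀ i, Measurable (dl y y' i) := dl_meas hy hy'
  have hb : ∀ i, ∃ C, ∀ ω, |dl y y' i ω| ≤ C := fun i => ⟨1, dl_bd y y' i⟩
  constructor
  · intro W
    have h3 : ∀ i, ∀ᵐ ω ∂P, (P[fun ω => dl y y' i (g ω) | Inv T W]) ω =
        (P'[dl y y' i | Inv T' W]) (g ω) :=
      fun i => h1 Ω Ω' P P' T T' g W (dl y y' i) hT hT' hF (hm i) (hb i)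
    filter_upwards [ae_all_iff.2 h3] with ω hω
    unfold Mis
    exact Finset.sum_congr rfl fun i _ => hω i
  · have h3 : ∀ i, ∀ᵐ ω ∂P, (P[fun ω => dl y y' i (g ω) | Rt T]) ω =
        (P'[dl y y' i | Rt T']) (g ω) :=
      fun i => h2 Ω Ω' P P' T T' g (dl y y' i) hT hT' hF (hm i) (hb i)
    filter_upwards [ae_all_iff.2 h3] with ω hω
    unfold Mis
    exact Finset.sum_congr rfl fun i _ => hω i

end Pool.Agent.H54.AG
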